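import Pool.Agent.MP_df941e_gt.HSp

/-!
A path connected homogeneous compact metric space in which the pair `(id, c)` is joined to a pair
`(f, x)`, for every point `x`, by a connected equicontinuous set of pairs (self-map, point) with
values near `c` is locally connected.
-/

set_option autoImplicit false

open Metric Set

namespace Pool.Agent.Results.MP_df941e_gt.ContinuaOfMaps

theorem result (X : Type) [MetricSpace X] [CompactSpace X] [PathConnectedSpace X]
    (hom : ∀ x y : X, ∃ h : X ≃ₜ X, h x = y) (c : X)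
    (H : ∀ x : X, ∀ ε > (0 : ℝ), ∃ Z : Set (C(X, X) × X), IsPreconnected Z ∧ TotallyBounded Z ∧
      (ContinuousMap.id X, c) ∈ Z ∧ (∃ f, (f, x) ∈ Z) ∧ ∀ p ∈ Z, p.1 p.2 ∈ ball c ε) :
    LocallyConnectedSpace X := by
  refine Pool.Agent.MP_df941e_gt.lc_of_jm hom c fun ε hε x => ?_
  obtain ⟨Z, z1, z2, z3, ⟨f, z4⟩, z5⟩ := H x ε hε
  exact ⟨f, Z, z1, z2, z3, z4, z5⟩

end Pool.Agent.Results.MP_df941e_gt.ContinuaOfMaps
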