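import Pool.Agent.MP_df941e_gt.Core

/-!
A homogeneous compact metric space that is homotopy dominated by a locally connected space (the
homotopy may be parametrised by any compact connected space) is locally connected.
-/

set_option autoImplicit false

open Metric Set Filter Topology

namespace Pool.Agent.Results.MP_df941e_gt.HomotopyDominated

open Pool.Agent.MP_df941e_gt

theorem result (X : Type) [MetricSpace X] [CompactSpace X]
    (hom : ∀ x y : X, ∃ h : X ≃ₜ X, h x = y)
    (Y : Type) [TopologicalSpace Y] [LocallyConnectedSpace Y] (k : C(X, Y)) (g : C(Y, X))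
    (T : Type) [TopologicalSpace T] [CompactSpace T] [ConnectedSpace T] (a b : T)
    (H : C(X × T, X)) (h0 : ∀ x, H (x, a) = x) (h1 : ∀ x, H (x, b) = g (k x)) :
    LocallyConnectedSpace X := by
  rcases isEmpty_or_nonempty X with hX | ⟨⟨p⟩⟩
  · exact locallyConnectedSpace_iff_connected_subsets.2 fun x => isEmptyElim x
  set F : C(T, C(X, X)) := (H.comp ContinuousMap.prodSwap).curry with hF
  have : CompactSpace (range F) := isCompact_iff_compactSpace.1 (isCompact_range F.continuous)
  have : PreconnectedSpace (range F) :=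
    Subtype.preconnectedSpace (isPreconnected_range F.continuous)
  refine lc_of_chains hom (chains hom p (fun (c : range F) x => c.1 x) (by fun_prop)
    ⟨F a, a, rfl⟩ ⟨F b, b, rfl⟩ h0 fun s hs => ?_)
  have hb : ∀ x, F b x = g (k x) := h1
  simp only [hb]
  choose V hV hVc hVs using fun z : X => locallyConnectedSpace_iff_connected_subsets.1 ‹_› (k z)
    (g ⁻¹' ball (g (k z)) (s / 2))
    (g.continuous.continuousAt.preimage_mem_nhds (ball_mem_nhds _ (half_pos hs)))
  obtain ⟨η, hη, hL⟩ := lebesgue_number_lemma_of_metric isCompact_univ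
    (c := fun z : X => interior (k ⁻¹' V z)) (fun _ => isOpen_interior)
    fun z _ => mem_iUnion.2 ⟨z, mem_interior_iff_mem_nhds.2
      (k.continuous.continuousAt.preimage_mem_nhds (hV z))⟩
  refine ⟨η, hη, fun y y' hy => ?_⟩
  obtain ⟨z, hz⟩ := hL y (mem_univ y)
  have m1 : y ∈ k ⁻¹' V z := interior_subset (hz (mem_ball_self hη))
  have m2 : y' ∈ k ⁻¹' V z := interior_subset (hz (mem_ball'.2 hy))
  refine ⟨g '' V z, (hVc z).image g g.continuous.continuousOn, ⟨_, m1, rfl⟩, ⟨_, m2, rfl⟩, ?_⟩
  rintro _ ⟨v, hv, rfl⟩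
  have a1 : dist (g v) (g (k z)) < s / 2 := hVs z hv
  have a2 : dist (g (k y)) (g (k z)) < s / 2 := hVs z m1
  exact mem_ball.2 (by linarith [dist_triangle_right (g v) (g (k y)) (g (k z))])

end Pool.Agent.Results.MP_df941e_gt.HomotopyDominated
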