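import Pool.Agent.MP_df941e_gt.Tern

/-!
A path connected homogeneous compact metric space with a continuous ternary operation `F` such
that `F (e, e, ·)` is homotopic to the identity and `F (x, y, x)`, `F (x, x, y)` lie in small
connected sets for near `x`, `y` (for example a commutative H-space) is locally connected.
-/

set_option autoImplicit false

open Metric Set

namespace Pool.Agent.Results.MP_df941e_gt.TernaryOperation

theorem result (X : Type) [MetricSpace X] [CompactSpace X] [PathConnectedSpace X]
    (hom : ∀ x y : X, ∃ h : X ≃ₜ X, h x = y)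
    (F : C(X × X × X, X)) (e : X) (H : C(X × unitInterval, X))
    (h0 : ∀ z, H (z, 0) = z) (h1 : ∀ z, H (z, 1) = F (e, e, z))
    (hF : ∀ ε > (0 : ℝ), ∃ δ > (0 : ℝ), ∀ x y : X, dist x y < δ →
      ∃ S : Set X, IsPreconnected S ∧ F (x, y, x) ∈ S ∧ F (x, x, y) ∈ S ∧
        S ⊆ ball (F (x, x, x)) ε) :
    LocallyConnectedSpace X :=
  Pool.Agent.MP_df941e_gt.lc_of_tern hom F e H h0 h1 hF

end Pool.Agent.Results.MP_df941e_gt.TernaryOperation
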